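import Pool.Agent.V8H35.GS.Fin

/-!
# Meromorphy at the edge and the law of the Satake parameters, for all `GSp(2n)`

Let `π` be a unitary automorphic representation of `GSp(2n)` over `ℚ`, `n ≥ 1` arbitrary, unramified
outside the finite set `S`; `A_p ∈ ^LG = GSpin(2n+1)` is the Satake class at `p ∉ S`, and `r` is the spin
representation, of degree `2^n`. The Ramanujan conjecture is **not** assumed. Let `T` be any subgroup
of `ℝ`, for instance `T = {0}` or `T = ℝ`.

**Theorem.** One of the following is true.

* (0) For some `k ≥ 1` the Euler product `L_S(s, π, (r ⊗ r^∨)^{⊗ k})` has no meromorphic continuation to the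
  half-plane `Re s > 1` without poles on the real half-line `(1, ∞)`.

Or the Ramanujan conjecture holds for all `p ∉ S` (the class `A_p` is the class of a point `u_p` of the maximal
compact subgroup `(S¹)^{n+1}` of the torus of `^LG`), and

* (1) for some virtual representation `ρ` of `^LG` and some `τ ∈ T` there is no integer `a` such that
  `log L_S(1 + iτ + ε, π, ρ) ~ a log (1/ε)` for `ε → 0+`; so `L_S(s, π, ρ)`, and `L_S(s, π, ρ')` for one of the
  irreducible constituents `ρ'` of `ρ`, has no meromorphic continuation to any neighbourhood of the point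
  `1 + iτ`; or
* (2) **the Satake parameters have an algebraic law**. There are `r ≤ 2^n n!` closed subgroups `K_j` of the
  compact torus and trigonometric polynomials `f_j` with *integral* coefficients, `f_j ≥ 0` on `K_j`, such that for
  every continuous function `g` on the torus the mean value over the primes `p` of `∑_w g(w u_p)` (the sum over the
  Weyl group, `2^n n! · g(A_p)` for a class function `g`) is the sum of the integrals
  `∫_{K_j} g f_j` (Haar measures). The pole orders `a(ρ, τ)` of all `L_S(s, π, ρ)` at all points `1 + iτ`, `τ ∈ T`, are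
  given by a finite amount of data: for simple functions `ψ_1, …, ψ_r` on the group `X × T`, `X` the group of the
  weights, one has `2^n n! a(ρ, τ) = ∑_λ m_ρ(λ) ∑_j ψ_j(λ, τ)`. Here simple means positive definite, integral,
  constant on the cosets of a subgroup `H_j`, and different from `0` on finitely many cosets only;
  `K_j` is the annihilator of `H_j ∩ X`, and `ψ_j(λ, 0)` is the Fourier coefficient of `f_j` times the Haar measure.
  The ordinates `τ ∈ T` of *all* zeros and poles of *all* `L_S(s, π, ρ)` are in one finitely generated group `T₀`; and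
  for every weight `λ` there are at most `(2^n n!)²` points `1 + iτ`, `τ ∈ T`, at which `L_S(s, π, ∑_w w λ)` has a zero or
  a pole (the sum of the squares of the orders is at most `(2^n n!)²`).

So a proof of the conjecture, even only near the half-plane `Re s > 1` and the point `s = 1`, gives the
Ramanujan conjecture and the existence of an algebraic Sato-Tate law for all `π` and all `n`. Conversely, if the Satake
parameters of some `π` have no limit law in density, or a law of another type, then the answer to Q1 is
negative. For `n = 1`, trivial central character and with the known properties of the first symmetric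
powers `MeromorphyOnTheEdge` has a more precise result (the law is that of Sato and Tate, or `π` is of finite
type); the result here is for all `n`, all central characters and all `ρ`.

Idea. Let `E` be the mean value over the primes. The function `F(λ, τ) = E(∑_w λ(w u_p) p^{-iτ})` on `X × T`
is positive definite, and it is the order at `1 + iτ` of the L-function of the virtual representation
`∑_w w λ`, hence integral. By the theorem of Cohen on idempotent measures (proved in `V8H32.Coh` for positive
definite integral functions on any abelian group) it is a sum of at most `F(0, 0) = 2^n n!` simple functions.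
These are Fourier transforms of `f_j · (Haar measure of K_j)` (duality for the subgroups of `X`; that `f_j ≥ 0`
follows by averaging over boxes), and the law follows with the theorem of Stone and Weierstrass. The Ramanujan
conjecture follows from (the negation of) (0) by Landau's lemma, as `|tr r(A_p^l)|^{2k}` are the
coefficients of the logarithm.
-/

set_option autoImplicit false

namespace Pool.Agent.Results.MP_eea520_nt.AlgebraicSatakeLaw

open Complex Filter Topology MeasureTheory Pool.Agent.V8H35.GS

theorem result {n : ℕ} {S : Finset ℕ} {b : ℕ → Torus n ℂˣ} {θ : ℝ} (hb : Satake S b θ)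
    (T : AddSubgroup ℝ) :
    (∃ k : ℕ, 1 ≤ k ∧ ¬ RealPoleFree S b (tensor n k)) ∨
    ∃ u : ℕ → Torus n Circle, (∀ p : ℕ, p.Prime → p ∉ S → toC (u p) = b p) ∧
      ((∃ m : Weight n →₀ ℤ, IsRep m ∧ ∃ τ ∈ T,
          (¬ ∃ a : ℤ, Tendsto (size S b m τ) (𝓝[>] 0) (𝓝 (a : ℂ))) ∧
          ¬ ∃ Λ : ℂ → ℂ, Continues (LFun S b m) Λ (1 + τ * I)) ∨
        ∃ (r : ℕ) (ψ : Fin r → Weight n × T → ℤ) (K : Fin r → Subgroup (Torus n Circle))
          (μ : Fin r → Measure (Torus n Circle)) (f : Fin r → Weight n →₀ ℤ),
          r ≤ 2 ^ n * n.factorial ∧ (∀ j, IsSimple (ψ j)) ∧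
          ∑ j, ψ j 0 = ((2 ^ n * n.factorial : ℕ) : ℤ) ∧
          (∀ j x, x ∈ K j ↔ ∀ k, ψ j (k, 0) = ψ j 0 → ev k x = 1) ∧ (∀ j, IsHaar (K j) (μ j)) ∧
          (∀ j, ∀ x ∈ K j, ∃ a : ℝ, 0 ≤ a ∧ tr (f j) (toC x) = a) ∧
          (∀ j k, ∫ x, ((ev k x : Circle) : ℂ) * tr (f j) (toC x) ∂μ j = (ψ j (k, 0) : ℂ)) ∧
          (∀ m : Weight n →₀ ℤ, IsRep m → ∀ τ : T, ∃ a : ℤ,
            Tendsto (size S b m τ) (𝓝[>] 0) (𝓝 (a : ℂ)) ∧
            ((2 ^ n * n.factorial : ℕ) : ℤ) * a = ∑ k ∈ m.support, m k * ∑ j, ψ j (k, τ) ∧
            ∀ Λ : ℂ → ℂ, Continues (LFun S b m) Λ (1 + (τ : ℝ) * I) →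
              meromorphicOrderAt Λ (1 + (τ : ℝ) * I) = ((-a : ℤ) : WithTop ℤ)) ∧
          (∀ (k : Weight n) (E : Finset T),
            ∑ τ ∈ E, (∑ j, ψ j (k, τ)) ^ 2 ≤ ((2 ^ n * n.factorial : ℕ) : ℤ) ^ 2) ∧
          (∃ T₀ : AddSubgroup T, T₀.FG ∧ ∀ j k τ, ψ j (k, τ) ≠ 0 → τ ∈ T₀) ∧
          ∀ g : Torus n Circle → ℂ, Continuous g →
            Tendsto (mean fun p => if (p : ℕ) ∈ S then 0 else ∑ w : Weyl n, g (w.onTorus (u p)))
              (𝓝[>] 0) (𝓝 (∑ j, ∫ x, g x * tr (f j) (toC x) ∂μ j))) := by
  by_cases h0 : ∀ k : ℕ, 1 ≤ k → RealPoleFree S b (tensor n k)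
  swap
  · left
    push Not at h0
    exact h0
  right
  obtain ⟨u, hu⟩ := exists_unitary fun p hp hpS => ramanujan hb h0 hp hpS
  refine ⟨u, hu, ?_⟩
  by_cases h1 : ∀ m : Weight n →₀ ℤ, IsRep m → ∀ τ ∈ T,
      ∃ a : ℤ, Tendsto (size S b m τ) (𝓝[>] 0) (𝓝 (a : ℂ))
  · right
    exact main hu h1
  · left
    push Not at h1
    obtain ⟨m, hm, τ, hτ, h2⟩ := h1
    refine ⟨m, hm, τ, hτ, fun ⟨a, ha⟩ => h2 a ha, fun ⟨Λ, hΛ⟩ => ?_⟩
    obtain ⟨a, -, ha⟩ := continues_order hu m τ hΛ
    exact h2 a ha

end Pool.Agent.Results.MP_eea520_nt.AlgebraicSatakeLaw
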