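import Pool.Agent.V8H32.SymP.Core
import Pool.Agent.V8H32.SymP.ST
import Pool.Agent.V8H32.SymP.Rama

/-!
# Meromorphy on the edge: a tetrachotomy for the symmetric power L-functions of `PGL_2`

`n = 1`: let `π` be a cuspidal automorphic representation of `PGL_2` over `ℚ` (a Maass form or a holomorphic
form), `S` a finite set of primes containing the ramified ones, `A_p = (α_p, α_p⁻¹)` the
Satake parameter at `p ∉ S`; the Ramanujan conjecture `|α_p| = 1` is **not** assumed. The irreducible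
representations of the dual group `SL_2(ℂ)` are the `Sym^k`. The theorem is proved for every family of numbers
`α_p`, `p ∉ S`, with real `α_p + α_p⁻¹` and `|α_p|, |α_p⁻¹| ≤ p^θ`. Let `T` be any subgroup of `ℝ`, for instance
`T = {0}` or `T = ℝ`.

**Theorem.** One of the following is true.

* (00) For `k = 1`, `k = 2` or `k = 4` the Euler product `L_S(s, π, Sym^k)` has no holomorphic continuation to
  `Re s > 1` and to a neighbourhood of `s = 1` which is not `0` at `s = 1` (if `π` is not dihedral, this is excluded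
  by the theorems of Hecke, Jacquet-Shalika, Gelbart-Jacquet and Kim).
* (0) For some even `k ≥ 2` the Euler product `L_S(s, π, Sym^k)` has no meromorphic continuation to the half-plane
  `Re s > 1` without poles on the real half-line `(1, ∞)`.

Or the Ramanujan conjecture `|α_p| = 1` holds for **all** `p ∉ S` and

* (1) for some `k ≥ 1` and `τ ∈ T` there is no integer `m` with
  `log |L_S(1 + iτ + ε, π, Sym^k)| ~ m log (1/ε)`, `ε → 0+`; so there is no meromorphic continuation to any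
  neighbourhood of the point `1 + iτ`; or
* (2) for all `k ≥ 1` and `τ ∈ T` the size of `L_S(1 + iτ + ε, π, Sym^k)` is `ε^{o(1)}`, all meromorphic
  continuations to neighbourhoods of the points `1 + iτ`, `τ ∈ T`, are of order `0` (no zero, no pole), and the
  Sato-Tate law holds; or
* (3) `π` is of finite type: for some `M ≥ 3` the `α_p` tend to the `M`-th roots of unity in density, and with the
  pole orders `m_k(τ) ∈ ℤ` at `1 + iτ`, `m_M(0) = m_{M-2}(0) + 2` and
  `m_{k+M+2}(τ) - m_{k+M}(τ) = m_{k+2}(τ) - m_k(τ)` for `k ≥ 1`, `τ ∈ T`.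

So a proof that the Euler products are *meromorphic* near the closed half-plane `Re s ≥ 1` without real poles
`> 1` gives the Ramanujan conjecture for Maass forms, the nonvanishing and the regularity of all symmetric powers
on the line `Re s = 1` and the Sato-Tate law, or `π` is of finite (Galois) type; already meromorphy at the single
point `s = 1` gives the Sato-Tate law. Conversely, `L_S(s, π, Sym^k)` for some `k` is not meromorphic if `π`
violates the Ramanujan conjecture or the Sato-Tate law without being of finite type, if one of the Euler products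
has a zero or a pole at one point of the line, or a singularity there with an order which is not an integer.

Idea. The function `(k, τ) ↦ E(2 Re α_p^k · Re p^{-iτ})`, where `E` is the mean value over the primes with the
weight `p^{-1-ε}`, is a positive definite function on the group `ℤ × T`, and it is an integral combination of the
sizes of the Euler products near `1 + iτ`: its values are integers. By the idempotent theorem of Helson and Cohen
(proved here for positive definite functions on any group by a weak limit argument in the Hilbert space) it is a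
finite sum of functions which are carried by finitely many cosets of subgroups, and the value `2` at `0` leaves
few possibilities. The Ramanujan conjecture follows from Landau's lemma for the Euler product of
`L(s, Sym^k × Sym^k)`, `k → ∞`.
-/

set_option autoImplicit false

namespace Pool.Agent.Results.MP_eea520_nt.MeromorphyOnTheEdge

open Complex Filter Topology Pool.Agent.V8H32.SymP Pool.Agent.V8H32.Coh

/-- The theorem for data with the known properties of the symmetric powers `k = 1, 2, 4`. -/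
theorem main {S : Finset ℕ} {α : ℕ → ℂ} {θ : ℝ} (hα : SatakeParameters S α θ)
    (h1 : RegularAtOne S α 1) (h2 : RegularAtOne S α 2) (h4 : RegularAtOne S α 4)
    (T : AddSubgroup ℝ) :
    (∃ k : ℕ, 2 ≤ k ∧ Even k ∧ ¬ RealPoleFree S α k) ∨
    ((∀ p : ℕ, p.Prime → p ∉ S → ‖α p‖ = 1) ∧
      ((∃ k : ℕ, 1 ≤ k ∧ ∃ τ ∈ T, (¬ ∃ m : ℤ, Tendsto (size S α k τ) (𝓝[>] 0) (𝓝 m)) ∧
          ¬ ∃ Λ : ℂ → ℂ, Continues (symL S α k) Λ (1 + τ * I)) ∨
        ((∀ k : ℕ, 1 ≤ k → ∀ τ ∈ T, Tendsto (size S α k τ) (𝓝[>] 0) (𝓝 0) ∧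
            ∀ Λ : ℂ → ℂ, Continues (symL S α k) Λ (1 + τ * I) →
              meromorphicOrderAt Λ (1 + τ * I) = 0) ∧
          SatoTate S α) ∨
        ∃ (M : ℕ) (m : ℕ → ℝ → ℤ), 3 ≤ M ∧ NearRootsOfUnity S α M ∧
          (∀ k : ℕ, 1 ≤ k → ∀ τ ∈ T, Tendsto (size S α k τ) (𝓝[>] 0) (𝓝 (m k τ)) ∧
            ∀ Λ : ℂ → ℂ, Continues (symL S α k) Λ (1 + τ * I) →
              meromorphicOrderAt Λ (1 + τ * I) = ((-m k τ : ℤ) : WithTop ℤ)) ∧
          m M 0 = m (M - 2) 0 + 2 ∧
          ∀ k : ℕ, 1 ≤ k → ∀ τ ∈ T, m (k + M + 2) τ - m (k + M) τ = m (k + 2) τ - m k τ)) := by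
  by_cases h0 : ∀ k : ℕ, 2 ≤ k → Even k → RealPoleFree S α k
  swap
  · left
    push Not at h0
    obtain ⟨k, hk, hk2, hk3⟩ := h0
    exact ⟨k, hk, hk2, hk3⟩
  right
  have hu := fun p hp hpS => ramanujan hα h0 p hp hpS
  refine ⟨hu, ?_⟩
  have hα0 := sat_zero hα hu
  -- a meromorphic continuation has the order given by the size
  have hmero : ∀ (k : ℕ) (τ : ℝ) (Λ : ℂ → ℂ), Continues (symL S α k) Λ (1 + τ * I) →
      ∃ m : ℤ, meromorphicOrderAt Λ (1 + τ * I) = m ∧
        Tendsto (size S α k τ) (𝓝[>] 0) (𝓝 (-(m : ℝ))) := by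
    intro k τ Λ hΛ
    refine mero (s₀ := 1 + τ * I) (sym_size hu k τ).1 hΛ.1 ?_
    simpa using hΛ.2
  by_cases hint : ∀ k : ℕ, 1 ≤ k → ∀ τ ∈ T, ∃ m : ℤ, Tendsto (size S α k τ) (𝓝[>] 0) (𝓝 m)
  swap
  · left
    push Not at hint
    obtain ⟨k, hk, τ, hτ, hno⟩ := hint
    refine ⟨k, hk, τ, hτ, fun ⟨m, hm⟩ => hno m hm, fun ⟨Λ, hΛ⟩ => ?_⟩
    obtain ⟨m, -, hm⟩ := hmero k τ Λ hΛ
    refine hno (-m) ?_
    push_cast
    exact hm
  right
  choose! m hm using hint
  have hzero : ∀ k : ℕ, 1 ≤ k → RegularAtOne S α k → m k 0 = 0 := by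
    intro k hk ⟨Λ, σ, hd, han, hne, he⟩
    have h5 : Continues (symL S α k) Λ (1 + (0 : ℝ) * I) := by
      constructor
      · simpa using han.meromorphicAt
      · exact Eventually.of_forall fun s hs => symL_eq hα0 k hd he s hs
    obtain ⟨l, hl1, hl2⟩ := hmero k 0 Λ h5
    have h6 : meromorphicOrderAt Λ (1 + (0 : ℝ) * I) = 0 := by
      have h7 : AnalyticAt ℂ Λ (1 + (0 : ℝ) * I) := by simpa using han
      rw [h7.meromorphicOrderAt_eq, (h7.analyticOrderAt_eq_zero).2 (by simpa using hne)]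
      rfl
    rw [h6] at hl1
    have h7 : l = 0 := by exact_mod_cast hl1.symm
    rw [h7, Int.cast_zero, neg_zero] at hl2
    have h8 := tendsto_nhds_unique (hm k hk 0 T.zero_mem) hl2
    exact_mod_cast h8
  rcases core hu T (fun k τ => (m k τ : ℝ)) (fun k _ τ _ => ⟨m k τ, rfl⟩)
      (fun k hk τ hτ => ((sym_size hu k τ).2 _).2 (hm k hk τ hτ))
      (by rw [hzero 1 le_rfl h1, Int.cast_zero]) (by rw [hzero 2 (by norm_num) h2, Int.cast_zero])
      (by rw [hzero 4 (by norm_num) h4, Int.cast_zero]) with ⟨h5, h6⟩ | ⟨M, hM, h5, h6, h7⟩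
  · left
    have hs : ∀ k : ℕ, 1 ≤ k → ∀ τ ∈ T, Tendsto (size S α k τ) (𝓝[>] 0) (𝓝 0) := by
      intro k hk τ hτ
      have h7 := hm k hk τ hτ
      have h8 : ((m k τ : ℤ) : ℝ) = 0 := h5 k hk τ hτ
      rwa [h8] at h7
    refine ⟨fun k hk τ hτ => ⟨hs k hk τ hτ, fun Λ hΛ => ?_⟩, satoTate hu h6⟩
    obtain ⟨l, hl1, hl2⟩ := hmero k τ Λ hΛ
    have h9 := tendsto_nhds_unique (hs k hk τ hτ) hl2
    have h10 : l = 0 := by
      have : (l : ℝ) = 0 := by linarith
      exact_mod_cast this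
    rw [hl1, h10]
    rfl
  · right
    refine ⟨M, m, hM, near hu h7, fun k hk τ hτ => ⟨hm k hk τ hτ, fun Λ hΛ => ?_⟩, by exact_mod_cast h5,
      fun k hk τ hτ => by exact_mod_cast h6 k hk τ hτ⟩
    obtain ⟨l, hl1, hl2⟩ := hmero k τ Λ hΛ
    have h9 := tendsto_nhds_unique (hm k hk τ hτ) hl2
    have h10 : l = -m k τ := by
      have : (l : ℝ) = ((-m k τ : ℤ) : ℝ) := by
        push_cast
        linarith
      exact_mod_cast this
    rw [hl1, h10]

theorem result {S : Finset ℕ} {α : ℕ → ℂ} {θ : ℝ} (hα : SatakeParameters S α θ)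
    (T : AddSubgroup ℝ) :
    (∃ k : ℕ, (k = 1 ∨ k = 2 ∨ k = 4) ∧ ¬ RegularAtOne S α k) ∨
    (∃ k : ℕ, 2 ≤ k ∧ Even k ∧ ¬ RealPoleFree S α k) ∨
    ((∀ p : ℕ, p.Prime → p ∉ S → ‖α p‖ = 1) ∧
      ((∃ k : ℕ, 1 ≤ k ∧ ∃ τ ∈ T, (¬ ∃ m : ℤ, Tendsto (size S α k τ) (𝓝[>] 0) (𝓝 m)) ∧
          ¬ ∃ Λ : ℂ → ℂ, Continues (symL S α k) Λ (1 + τ * I)) ∨
        ((∀ k : ℕ, 1 ≤ k → ∀ τ ∈ T, Tendsto (size S α k τ) (𝓝[>] 0) (𝓝 0) ∧
            ∀ Λ : ℂ → ℂ, Continues (symL S α k) Λ (1 + τ * I) →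
              meromorphicOrderAt Λ (1 + τ * I) = 0) ∧
          SatoTate S α) ∨
        ∃ (M : ℕ) (m : ℕ → ℝ → ℤ), 3 ≤ M ∧ NearRootsOfUnity S α M ∧
          (∀ k : ℕ, 1 ≤ k → ∀ τ ∈ T, Tendsto (size S α k τ) (𝓝[>] 0) (𝓝 (m k τ)) ∧
            ∀ Λ : ℂ → ℂ, Continues (symL S α k) Λ (1 + τ * I) →
              meromorphicOrderAt Λ (1 + τ * I) = ((-m k τ : ℤ) : WithTop ℤ)) ∧
          m M 0 = m (M - 2) 0 + 2 ∧
          ∀ k : ℕ, 1 ≤ k → ∀ τ ∈ T, m (k + M + 2) τ - m (k + M) τ = m (k + 2) τ - m k τ)) := by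
  by_cases h1 : RegularAtOne S α 1
  swap
  · exact Or.inl ⟨1, Or.inl rfl, h1⟩
  by_cases h2 : RegularAtOne S α 2
  swap
  · exact Or.inl ⟨2, Or.inr (Or.inl rfl), h2⟩
  by_cases h4 : RegularAtOne S α 4
  swap
  · exact Or.inl ⟨4, Or.inr (Or.inr rfl), h4⟩
  exact Or.inr (main hα h1 h2 h4 T)

end Pool.Agent.Results.MP_eea520_nt.MeromorphyOnTheEdge
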