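import Pool.Agent.V8H25.SP.Gl2
import Pool.Agent.V8H61.SP.GL

/-!
# MP_eea520_nt: the spin L-functions suffice

`𝒮 n` and `𝒢 m` are classes of representations of `GSp(2n)` and `GL(m)` over `ℚ`, unramified outside
`S`, given by their Satake parameters and closed under parabolic induction to `GSp(2(n+m))`, for
instance the classes of all automorphic representations unramified outside `S` (Langlands). Let `A`
be the Satake parameters of a representation `π` of `GSp(2n)` with the standard transfer to
`GL(2n+1)` in `𝒢 (2n+1)` (and with its twists in the classes).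

For every virtual representation `ρ` of `GSpin(2n+1, ℂ)`:

* on every half-plane `Re s > -R` the L-function `L_S(s, π, ρ)` is the product of a holomorphic
  function without zeros and of finitely many integral powers of real translates of spin
  L-functions of members of the classes `𝒮 N`, `N ≥ 1`;
* if the spin L-functions of the members of all `𝒮 N`, `N ≥ 1`, have meromorphic continuations to
  `ℂ`, then so does `L_S(s, π, ρ)`.

More generally, with a representation `σ ∈ 𝒢 m` of `GL(m)` with the parameters `b`, the same holds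
for `L_S(s, π × σ, ρ)` and every virtual representation `ρ` of `GSpin(2n+1, ℂ) × GL(m, ℂ)`. For
`n = 0` these are all the L-functions `L_S(s, σ, ρ)` of `GL(m)`, for instance all symmetric power
L-functions.
-/

set_option autoImplicit false

namespace Pool.Agent.Results.MP_eea520_nt.SpinSuffices

open Pool.Agent.V8H32.SP Pool.Agent.V8H25.SP

theorem result (S : Finset Nat.Primes) (𝒮 : ∀ n, Set (Par n)) (𝒢 : ∀ m, Set (GPar m))
    (h : IndClosed S 𝒮 𝒢) :
    (∀ (n : ℕ) (A : Par n), Transfers 𝒮 𝒢 A → ∀ ρ : Rep n, IsW ρ →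
      SpinProduct S 𝒮 (LS S A ρ) ∧
      ((∀ N, 1 ≤ N → ∀ B ∈ 𝒮 N, Continues (LS S B (spin N))) → Continues (LS S A ρ))) ∧
    ∀ (n m : ℕ) (A : Par n) (b : GPar m), Transfers2 𝒮 𝒢 A b → ∀ ρ : Rep2 n m, IsW2 ρ →
      SpinProduct S 𝒮 (LS2 S A b ρ) ∧
      ((∀ N, 1 ≤ N → ∀ B ∈ 𝒮 N, Continues (LS S B (spin N))) → Continues (LS2 S A b ρ)) :=
  ⟨fun _ _ hA _ hρ => ⟨main h hA hρ, fun hc => main_cont h hc hA hρ⟩,
    fun _ _ _ _ hA _ hρ => ⟨(main2 Pool.Agent.V8H61.SP.stmGL h hA hρ).1,
      fun hc => main2_cont Pool.Agent.V8H61.SP.stmGL h hc hA hρ⟩⟩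

end Pool.Agent.Results.MP_eea520_nt.SpinSuffices
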