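import Pool.Agent.V8H25.Lang.Temp

/-!
# One representation of the Weil group governs the edge of all the twists of `L_S(s, π, ρ)`

In the question `K = ℚ`, `G = {}^L G` is the L-group of `GSp_{2n}`, `A_v ∈ G` is (a representative of) the
Satake class of `π_v`, `v ∉ S`, and `ρ` is a finite dimensional representation of `G`.  The theorem holds
for every number field `K`, every group `G`, every family `A_v` and every `ρ`.  The first line on which
`L_S(s, π, ρ)` can have a pole or a zero is the edge `Re s = 1` of its half plane of absolute
convergence, if `L_S(s, π, ρ ⊗ \bar ρ)` converges absolutely for `Re s > 1` and has at most a pole at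
`s = 1` (`RankinSelberg`; for example this is so with `C = m²` if `π` is tempered outside of `S`; the
conjecture of Ramanujan is not assumed in the theorem).

The theorem is about the functions `L_S(s, π, ρ ⊗ σ^∨)` for all the irreducible unitary representations
`σ` of the Weil group of `K` together (for example all Artin representations and all unitary Hecke
characters).  There is one virtual representation `θ` of the Weil group, with `⟨θ, θ⟩ ≤ C`, such that the
order of the pole of `L_S(s, π, ρ ⊗ σ^∨)` at `s = 1 + iτ` is exactly `⟨σ ⊗ | |^{-iτ}, θ⟩`, for all `σ` and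
all `τ` for which this order exists.  No continuation and no functoriality is assumed for the existence of
`θ`.  Moreover `θ` approximates `ρ(π)` in mean square, with the error `C - ⟨θ, θ⟩`: if, for example,
`L_S(s, π, ρ ⊗ \bar ρ)` has a simple pole at `s = 1` (`C = 1`), then either none of the functions
`L_S(s, π, ρ ⊗ σ^∨)` has a zero or a pole on the edge, where the order exists, or `tr ρ(A_v)` agrees in
mean square over the primes of degree one, up to the sign, with the trace of one irreducible
representation of the Weil group.
-/

set_option autoImplicit false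

namespace Pool.Agent.Results.MP_eea520_nt.WeilTwistsOnTheEdge

open NumberField IsDedekindDomain
open Pool.Agent.N172.HS (WRep WRep.inner)
open Pool.Agent.V8H25.Lang (RankinSelberg Governs MeanSquare Exceptional)

/-- **The edge of all the twists.**  Let `K` be a number field, `S` a finite set of primes, `G` a group,
`A_v ∈ G` for all the primes `v` of `K` and `ρ` a representation of `G` of dimension `m`.

* If the eigenvalues of `ρ(A_v)`, `v ∉ S`, have absolute values at most one, then the condition
  `RankinSelberg` holds with the constant `m²`.
* Let the condition `RankinSelberg` hold with the constant `C`.  There is a virtual representation `θ` of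
  the Weil group of `K`, with `⟨θ, θ⟩ ≤ C`, such that
  * for every irreducible representation `σ` of the Weil group of `K` and every real `τ`, if the order of
    `L(s, π, ρ ⊗ σ^∨)` at `s = 1 + iτ` exists, then it is `-⟨σ ⊗ | |^{-iτ}, θ⟩` (`Governs`);
  * the mean square of `tr ρ(A_v) - tr θ(v)` over the primes `v ∉ S` of degree one is at most
    `C - ⟨θ, θ⟩` (`MeanSquare`);
  * for `0 < δ ≤ 1` there are at most `C / δ²` irreducible representations `σ_k`, all the constituents of
    `θ` among them, such that, without any assumption about a continuation, `L(1 + iτ + ε, π, ρ ⊗ σ^∨)`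
    is different from zero for small `ε > 0` and `|log |L(1 + iτ + ε, π, ρ ⊗ σ^∨)||` is less than
    `δ log(1/ε)` for arbitrarily small `ε > 0`, whenever `σ` is irreducible and `σ ⊗ | |^{-iτ}` is
    orthogonal to all the `σ_k` (`Exceptional`). -/
theorem result (K : Type) [Field K] [NumberField K] (S : Finset (HeightOneSpectrum (𝓞 K)))
    (G : Type) [Group G] (A : HeightOneSpectrum (𝓞 K) → G) (m : ℕ)
    (ρ : G →* Matrix (Fin m) (Fin m) ℂ) :
    ((∀ v ∉ S, ∀ z : ℂ, ‖z‖ < 1 → (1 - z • ρ (A v)).det ≠ 0) →
      RankinSelberg S (fun v => ρ (A v)) ((m : ℝ) ^ 2)) ∧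
    ∀ C : ℝ, RankinSelberg S (fun v => ρ (A v)) C →
      ∃ θ : WRep K, ((θ.inner θ : ℤ) : ℝ) ≤ C ∧ Governs (fun v => ρ (A v)) θ ∧
        MeanSquare S (fun v => ρ (A v)) θ (C - θ.inner θ) ∧
        ∀ δ : ℝ, 0 < δ → δ ≤ 1 →
          ∃ (n : ℕ) (σ : Fin n → WRep K), Exceptional (fun v => ρ (A v)) θ C δ σ :=
  ⟨fun h => Pool.Agent.V8H25.Lang.tempered h, fun _ h => Pool.Agent.V8H25.Lang.main h⟩

end Pool.Agent.Results.MP_eea520_nt.WeilTwistsOnTheEdge
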